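import Pool.Agent.Lib.MP_4ea76a_an.Statement

/-!
# Complemented copies of `ℓ∞/c₀` in itself

Let `T` be an isomorphic embedding of `ℓ∞/c₀` into itself which is a sum `T₁ + T₂ + T₃ + T₄`, where

* `T₁` lifts to a bounded linear operator on `ℓ∞`;
* `T₂` has a (possibly nonlinear) lifting on characteristic functions with the Baire property;
* `T₃` factors through an injective Banach space;
* `T₄` vanishes on an ideal `J` of subsets of `ℕ` for which `P(ℕ)/J` satisfies the countable
  chain condition.

Then the range of `T` is complemented in `ℓ∞/c₀`.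
-/

namespace Pool.Agent.Results.MP_4ea76a_an.ComplementedCopies

open MP4ea76aS

/-- A copy `T[ℓ∞/c₀]` of `ℓ∞/c₀` is complemented if the embedding `T` is the sum of an operator
which lifts to `ℓ∞`, an operator with a lifting with the Baire property, an operator factoring
through an injective Banach space, and an operator vanishing on a ccc ideal. -/
theorem result (T T₁ T₂ T₃ T₄ : Op) (hT : IsEmbedding T) (hsum : T = T₁ + T₂ + T₃ + T₄)
    (h₁ : Liftable T₁) (h₂ : BaireLiftable T₂) (h₃ : FactorsThroughInjective T₃)
    (h₄ : VanishesOnCCCIdeal T₄) : HasComplementedRange T :=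
  complemented T T₁ T₂ T₃ T₄ hT hsum h₁ h₂ h₃ h₄

end Pool.Agent.Results.MP_4ea76a_an.ComplementedCopies
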